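import Pool.Agent.Helper42.SLC.Goals
import Pool.Agent.Helper12.SL.GA7

/-!
# Packet AC of the project SL: the archimedean input of the core
-/

namespace Pool.Agent.Helper89.SLC

open Pool.Agent.Helper17.SL Pool.Agent.Helper42.SLC
open Pool.Agent.Helper51.SigLeo Pool.Agent.Helper51.SixExp NumberField Module

universe u v

/-- An imaginary quadratic field has no real embedding. -/
theorem conj_ne {k₀ : Type*} [Field k₀] [NumberField k₀] [IsTotallyComplex k₀] (φ : k₀ →+* ℂ) :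
    ComplexEmbedding.conjugate φ ≠ φ := by
  intro h
  have h1 : ComplexEmbedding.IsReal φ := h
  have h2 := IsTotallyComplex.isComplex (InfinitePlace.mk φ)
  rw [← InfinitePlace.not_isReal_iff_isComplex, InfinitePlace.isReal_mk_iff] at h2
  exact h2 h1

/-- The two embeddings of an imaginary quadratic field are conjugate. -/
theorem conj_eq {k₀ : Type*} [Field k₀] [NumberField k₀] [IsTotallyComplex k₀]
    (h2 : finrank ℚ k₀ = 2) (φ φ' : k₀ →+* ℂ) (h : φ ≠ φ') :
    ComplexEmbedding.conjugate φ' = φ := by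
  classical
  by_contra hne
  have hc : Fintype.card (k₀ →+* ℂ) = 2 := by
    rw [NumberField.Embeddings.card, h2]
  have h3 : ({φ, φ', ComplexEmbedding.conjugate φ'} : Finset (k₀ →+* ℂ)).card = 3 := by
    rw [Finset.card_eq_three]
    exact ⟨φ, φ', ComplexEmbedding.conjugate φ', h, fun e => hne e.symm,
      fun e => conj_ne φ' e.symm, rfl⟩
  have h4 := Finset.card_le_univ ({φ, φ', ComplexEmbedding.conjugate φ'} : Finset (k₀ →+* ℂ))
  omega

theorem conj_comp {k₀ N : Type*} [Field k₀] [Field N] [Algebra k₀ N] (ρ : N →+* ℂ) :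
    (ComplexEmbedding.conjugate ρ).comp (algebraMap k₀ N) =
      ComplexEmbedding.conjugate (ρ.comp (algebraMap k₀ N)) := rfl

theorem comp_restrict {k₀ N : Type*} [Field k₀] [Field N] [Algebra k₀ N] (ρ : N →+* ℂ)
    (c : N ≃ₐ[k₀] N) :
    (ρ.comp (c : N →+* N)).comp (algebraMap k₀ N) = ρ.comp (algebraMap k₀ N) := by
  ext x
  simp

/-- There is no complex conjugation over an imaginary field. -/
theorem no_conj {k₀ N : Type*} [Field k₀] [NumberField k₀] [IsTotallyComplex k₀] [Field N]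
    [Algebra k₀ N] (ρ : N →+* ℂ) (c : N ≃ₐ[k₀] N) :
    ComplexEmbedding.conjugate ρ ≠ ρ.comp (c : N →+* N) := by
  intro h
  have h1 := congrArg (fun σ : N →+* ℂ => σ.comp (algebraMap k₀ N)) h
  simp only [conj_comp, comp_restrict] at h1
  exact conj_ne _ h1

/-- The complex conjugation is unique. -/
theorem conj_unique {k₀ N : Type*} [Field k₀] [Field N] [Algebra k₀ N] (ρ : N →+* ℂ)
    (c d : N ≃ₐ[k₀] N) (hc : ComplexEmbedding.conjugate ρ = ρ.comp (c : N →+* N))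
    (hd : ComplexEmbedding.conjugate ρ = ρ.comp (d : N →+* N)) : d = c := by
  ext x
  have h1 : ρ.comp (d : N →+* N) = ρ.comp (c : N →+* N) := hd.symm.trans hc
  exact ρ.injective (RingHom.congr_fun h1 x)

/-- **PACKET AC.** -/
theorem ac (hNV : S_NV.{u, v}) : S_AC.{u, v} := by
  intro k₀ _ _ N _ _ _ _ _ θ ρ ρ' s hk hs h
  have hfin : FiniteDimensional k₀ N := Module.Finite.of_restrictScalars_finite ℚ k₀ N
  rcases h with ⟨hTC, hρ, hθ, ht⟩ | ⟨c, c', hc, hc', a1, a2, a3, a4, a5, a6⟩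
  · -- the complex case
    have h1 := conj_eq hk _ _ hρ
    obtain ⟨t, htt⟩ := Pool.Agent.Helper17.SL.PkGA7.thm.{u, v, 0} k₀ N ℂ ρ
      (ComplexEmbedding.conjugate ρ') (by rw [conj_comp, h1])
    have hL : ∀ (χ : (N ≃ₐ[k₀] N) →* ℂˣ) (w : Additive (𝓞 N)ˣ),
        tw χ (archLog ρ') w = ((χ t : ℂˣ) : ℂ) * tw χ (archLog ρ) w := by
      intro χ w
      rw [← archLog_conj ρ', htt, tw_archLog_comp]
    have hv : ∀ j, ∃ w, tw (θ j) (archLog ρ) w ≠ 0 := fun j =>
      hNV k₀ N (θ j) ρ (hθ j) (fun c hc => absurd hc (no_conj ρ c))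
    choose w hw using hv
    refine ⟨w, ?_, Or.inl (hw 2)⟩
    rw [hL, hL]
    have h2 := ht t htt
    have h3 : s * tw (θ 0) (archLog ρ) (w 0) * (((θ 1 t : ℂˣ) : ℂ) * tw (θ 1) (archLog ρ) (w 1)) -
        ((θ 0 t : ℂˣ) : ℂ) * tw (θ 0) (archLog ρ) (w 0) * tw (θ 1) (archLog ρ) (w 1) =
        -2 * ((θ 0 t : ℂˣ) : ℂ) * tw (θ 0) (archLog ρ) (w 0) * tw (θ 1) (archLog ρ) (w 1) := by
      linear_combination (tw (θ 0) (archLog ρ) (w 0) * tw (θ 1) (archLog ρ) (w 1)) * h2
    rw [h3]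
    exact mul_ne_zero (mul_ne_zero (mul_ne_zero (by norm_num) (Units.ne_zero _)) (hw 0)) (hw 1)
  · -- the real case
    have hm1 : (-1 : ℂˣ) ≠ 1 := by
      intro e
      have e1 := congrArg (fun z : ℂˣ => (z : ℂ)) e
      norm_num at e1
    obtain ⟨v0, hv0⟩ := hNV k₀ N (θ 0) ρ
      (fun e => hm1 (by rw [← a2, e]; rfl))
      (fun d hd => by rw [conj_unique ρ c d hc hd, a1])
    obtain ⟨v1, hv1⟩ := hNV k₀ N (θ 1) ρ'
      (fun e => hm1 (by rw [← a3, e]; rfl))
      (fun d hd => by rw [conj_unique ρ' c' d hc' hd, a4])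
    obtain ⟨v2, hv2⟩ := hNV k₀ N (θ 2) ρ'
      (fun e => hm1 (by rw [← a5, e]; rfl))
      (fun d hd => by rw [conj_unique ρ' c' d hc' hd, a6])
    have hz : tw (θ 0) (archLog ρ') v0 = 0 := by
      have h1 : tw (θ 0) (archLog ρ') v0 = ((θ 0 c' : ℂˣ) : ℂ) * tw (θ 0) (archLog ρ') v0 := by
        conv_lhs => rw [← archLog_conj ρ', hc', tw_archLog_comp]
      rw [a2] at h1
      push_cast at h1
      have h2 : (2 : ℂ) * tw (θ 0) (archLog ρ') v0 = 0 := by linear_combination h1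
      exact (mul_eq_zero.mp h2).resolve_left (by norm_num)
    refine ⟨![v0, v1, v2], ?_, Or.inr hv2⟩
    show s * tw (θ 0) (archLog ρ) v0 * tw (θ 1) (archLog ρ') v1 -
      tw (θ 0) (archLog ρ') v0 * tw (θ 1) (archLog ρ) v1 ≠ 0
    rw [hz, zero_mul, sub_zero]
    exact mul_ne_zero (mul_ne_zero hs hv0) hv1

end Pool.Agent.Helper89.SLC
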